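import Mathlib
import Pool.Agent.H57.Code.Gr

set_option autoImplicit false

/-!
A sub-weight given by sets of edges of the two circuits whose support has a bridge (MP_a46c6f_co).
-/

namespace Pool.Agent.H59.GS

open SimpleGraph Pool.Agent.H5.Goddyn Pool.Agent.H98.TC Pool.Agent.H57.Code

lemma z2 : ∀ z : ZMod 2, z = 0 ∨ z = 1 := by decide

lemma z2_sum : ∀ a b : ZMod 2, a + b = 1 → a = 1 ∨ b = 1 := by decide

lemma z2_val : ∀ a : ZMod 2, 0 < a.val → a = 1 := by decide

lemma z2_self : ∀ a : ZMod 2, a + a = 0 := by decide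

lemma sum_shift {n : ℕ} [NeZero n] (a X : ZMod n → ZMod 2) :
    ∑ i, (a (i - 1) + a i) * X i = ∑ i, a i * (X i + X (i + 1)) := by
  have h4 : ∑ i, a i * X (i + 1) = ∑ i, a (i - 1) * X i := by
    have := Equiv.sum_comp (Equiv.addRight (1 : ZMod n)) (fun i => a (i - 1) * X i)
    rw [← this]
    refine Finset.sum_congr rfl fun i _ => ?_
    show a i * X (i + 1) = a (i + 1 - 1) * X (i + 1)
    rw [add_sub_cancel_right]
  simp only [mul_add, add_mul, Finset.sum_add_distrib]
  rw [h4, add_comm]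

section

variable {V : Type*} {n : ℕ} {G : SimpleGraph V} {x y : ZMod n → V} {p : Equiv.Perm (ZMod n)}
  [NeZero n]

/-- the side of an end of a bridge -/
lemma side (hG : PG G x y p) (E : Set (ZMod n)) (a b : ZMod n → ZMod 2) (r t : V)
    (hbr : (support G (Wt x y p E a b)).IsBridge s(r, t)) :
    ∃ X Y : ZMod n → ZMod 2, (∀ i, a i = 1 → s(x i, x (i + 1)) ≠ s(r, t) → X i = X (i + 1)) ∧
      (∀ j, b j = 1 → s(y j, y (j + 1)) ≠ s(r, t) → Y j = Y (j + 1)) ∧
      (∀ i, i ∉ E → (a (i - 1) = 1 ∨ a i = 1) → s(x i, y (p i)) ≠ s(r, t) → X i = Y (p i)) ∧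
      (∀ i, x i = r → X i = 1) ∧ (∀ i, x i = t → X i = 0) ∧
      (∀ j, y j = r → Y j = 1) ∧ (∀ j, y j = t → Y j = 0) := by
  classical
  rw [isBridge_iff] at hbr
  let T' : SimpleGraph V := (support G (Wt x y p E a b)).deleteEdges {s(r, t)}
  have hr : ¬ T'.Reachable r t := hbr
  have hT : ∀ u v, s(u, v) ∈ G.edgeSet → 0 < Wt x y p E a b s(u, v) → s(u, v) ≠ s(r, t) →
      T'.Adj u v := by
    intro u v h1 h2 h3
    refine deleteEdges_adj.2 ⟨?_, h3⟩
    exact (fromEdgeSet_adj _).2 ⟨⟨h1, h2⟩, G.ne_of_adj h1⟩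
  have hcongr : ∀ u v, T'.Adj u v → (T'.Reachable r u ↔ T'.Reachable r v) :=
    fun u v huv => ⟨fun h1 => h1.trans huv.reachable, fun h1 => h1.trans huv.symm.reachable⟩
  have one_pos : 0 < (1 : ZMod 2).val := by decide
  refine ⟨fun i => if T'.Reachable r (x i) then 1 else 0,
    fun j => if T'.Reachable r (y j) then 1 else 0, ?_, ?_, ?_, ?_, ?_, ?_, ?_⟩
  · intro i hi hne
    have := hT _ _ (hG.memx i) (by rw [hG.Wx, hi]; exact one_pos) hne
    show (if T'.Reachable r (x i) then (1 : ZMod 2) else 0) = if _ then 1 else 0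
    rw [if_congr (hcongr _ _ this) rfl rfl]
  · intro j hj hne
    have := hT _ _ (hG.memy j) (by rw [hG.Wy, hj]; exact one_pos) hne
    show (if T'.Reachable r (y j) then (1 : ZMod 2) else 0) = if _ then 1 else 0
    rw [if_congr (hcongr _ _ this) rfl rfl]
  · intro i hiE hi hne
    have hpos : 0 < Wt x y p E a b s(x i, y (p i)) := by
      rw [hG.Wm, if_neg hiE]
      rcases hi with h | h
      · rw [h]; exact Nat.add_pos_left one_pos _
      · rw [h]; exact Nat.add_pos_right _ one_pos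
    have := hT _ _ (hG.memm i) hpos hne
    show (if T'.Reachable r (x i) then (1 : ZMod 2) else 0) = if _ then 1 else 0
    rw [if_congr (hcongr _ _ this) rfl rfl]
  · intro i hi
    show (if T'.Reachable r (x i) then (1 : ZMod 2) else 0) = 1
    rw [hi, if_pos (Reachable.refl _)]
  · intro i hi
    show (if T'.Reachable r (x i) then (1 : ZMod 2) else 0) = 0
    rw [hi, if_neg hr]
  · intro i hi
    show (if T'.Reachable r (y i) then (1 : ZMod 2) else 0) = 1
    rw [hi, if_pos (Reachable.refl _)]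
  · intro i hi
    show (if T'.Reachable r (y i) then (1 : ZMod 2) else 0) = 0
    rw [hi, if_neg hr]

/-- the two sums of the parity argument -/
lemma sums_eq (p : Equiv.Perm (ZMod n)) (a b X Y : ZMod n → ZMod 2)
    (h : ∀ i, (a (i - 1) + a i) * X i = (b (p i - 1) + b (p i)) * Y (p i)) :
    ∑ i, a i * (X i + X (i + 1)) = ∑ j, b j * (Y j + Y (j + 1)) := by
  rw [← sum_shift, ← sum_shift, ← Equiv.sum_comp p (fun j => (b (j - 1) + b j) * Y j)]
  exact Finset.sum_congr rfl fun i _ => h i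

lemma sum_zero (a X : ZMod n → ZMod 2) (h : ∀ i, a i = 1 → X i = X (i + 1)) :
    ∑ i, a i * (X i + X (i + 1)) = 0 := by
  refine Finset.sum_eq_zero fun i _ => ?_
  rcases z2 (a i) with h1 | h1
  · rw [h1, zero_mul]
  · rw [h i h1, z2_self, mul_zero]

lemma sum_one (a X : ZMod n → ZMod 2) (k : ZMod n) (h : ∀ i, i ≠ k → a i = 1 → X i = X (i + 1))
    (hk : a k = 1) (h1 : X k = 1) (h0 : X (k + 1) = 0) :
    ∑ i, a i * (X i + X (i + 1)) = 1 := by
  rw [Finset.sum_eq_single k]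
  · rw [hk, h1, h0]; decide
  · intro i _ hi
    rcases z2 (a i) with h2 | h2
    · rw [h2, zero_mul]
    · rw [h i hi h2, z2_self, mul_zero]
  · intro h
    exact absurd (Finset.mem_univ k) h

theorem bridge (hG : PG G x y p) (E : Set (ZMod n)) (a b : ZMod n → ZMod 2)
    (hev : ∀ i, i ∉ E → (a (i - 1) = a i ∧ b (p i - 1) = a i ∧ b (p i) = a i) ∨
      (a (i - 1) + a i = 1 ∧ b (p i - 1) + b (p i) = 1))
    (hE : ∀ i, i ∈ E → a (i - 1) = a i ∧ b (p i - 1) = b (p i))
    (hB : ¬ Bridgeless (support G (Wt x y p E a b))) :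
    ∃ g, g ∉ E ∧ a (g - 1) = 1 ∧ a g = 1 ∧ b (p g - 1) = 1 ∧ b (p g) = 1 ∧
      ∃ X Y : ZMod n → ZMod 2, X g = 1 ∧ Y (p g) = 0 ∧
        (∀ i, i ≠ g → i ∉ E → (a (i - 1) = 1 ∨ a i = 1) → X i = Y (p i)) ∧
        (∀ i, a i = 1 → X i = X (i + 1)) ∧ (∀ j, b j = 1 → Y j = Y (j + 1)) := by
  classical
  unfold Bridgeless at hB
  push Not at hB
  obtain ⟨e, he, hbr⟩ := hB
  have he' : e ∈ G.edgeSet ∧ 0 < Wt x y p E a b e := by
    unfold Pool.Agent.H98.TC.support at he
    rw [edgeSet_fromEdgeSet] at he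
    exact he.1
  obtain ⟨heG, hpos⟩ := he'
  -- the terms of the two sums at `i`
  have hterm : ∀ (X Y : ZMod n → ZMod 2) (i : ZMod n),
      (i ∉ E → (a (i - 1) = 1 ∨ a i = 1) → X i = Y (p i)) →
      (a (i - 1) + a i) * X i = (b (p i - 1) + b (p i)) * Y (p i) := by
    intro X Y i h
    by_cases hi : i ∈ E
    · obtain ⟨h1, h2⟩ := hE i hi
      rw [h1, h2, z2_self, z2_self, zero_mul, zero_mul]
    · rcases hev i hi with ⟨h1, h2, h3⟩ | ⟨h1, h2⟩
      · rw [h1, h2, h3, z2_self, zero_mul, zero_mul]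
      · rw [h1, h2, h hi (z2_sum _ _ h1)]
  rcases hG.cases heG with ⟨k, rfl⟩ | ⟨k, rfl⟩ | ⟨g, rfl⟩
  · exfalso
    rw [hG.Wx] at hpos
    have hk := z2_val _ hpos
    obtain ⟨X, Y, h1, h2, h3, h4, h5, h6, h7⟩ := side hG E a b _ _ hbr
    have e1 := sum_one a X k (fun i hi hai => h1 i hai (fun hh => hi ((hG.exx i k).1 hh))) hk
      (h4 k rfl) (h5 (k + 1) rfl)
    have e2 := sum_zero b Y (fun j hj => h2 j hj (hG.exy _ _ _ _).symm)
    have e3 := sums_eq p a b X Y (fun i => hterm X Y i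
      (fun hi hh => h3 i hi hh (hG.exm _ _ _ _).symm))
    rw [e1, e2] at e3
    exact absurd e3 (by decide)
  · exfalso
    rw [hG.Wy] at hpos
    have hk := z2_val _ hpos
    obtain ⟨X, Y, h1, h2, h3, h4, h5, h6, h7⟩ := side hG E a b _ _ hbr
    have e1 := sum_one b Y k (fun i hi hai => h2 i hai (fun hh => hi ((hG.eyy i k).1 hh))) hk
      (h6 k rfl) (h7 (k + 1) rfl)
    have e2 := sum_zero a X (fun j hj => h1 j hj (hG.exy _ _ _ _))
    have e3 := sums_eq p a b X Y (fun i => hterm X Y i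
      (fun hi hh => h3 i hi hh (hG.eym _ _ _ _).symm))
    rw [e1, e2] at e3
    exact absurd e3 (by decide)
  · rw [hG.Wm] at hpos
    have hgE : g ∉ E := by
      intro hg
      rw [if_pos hg] at hpos
      exact absurd hpos (lt_irrefl _)
    rw [if_neg hgE] at hpos
    obtain ⟨X, Y, h1, h2, h3, h4, h5, h6, h7⟩ := side hG E a b _ _ hbr
    have hX : ∀ i, a i = 1 → X i = X (i + 1) := fun i hi => h1 i hi (hG.exm _ _ _ _)
    have hY : ∀ j, b j = 1 → Y j = Y (j + 1) := fun j hj => h2 j hj (hG.eym _ _ _ _)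
    have hXY : ∀ i, i ≠ g → i ∉ E → (a (i - 1) = 1 ∨ a i = 1) → X i = Y (p i) :=
      fun i hi hiE hh => h3 i hiE hh (fun hs => hi ((hG.emm i g).1 hs))
    have hXg := h4 g rfl
    have hYg := h7 (p g) rfl
    rcases hev g hgE with ⟨q1, q2, q3⟩ | ⟨q1, q2⟩
    · have hag : a g = 1 := by
        rcases z2 (a g) with hh | hh
        · exfalso
          rw [q1, hh] at hpos
          revert hpos
          decide
        · exact hh
      refine ⟨g, hgE, q1.trans hag, hag, q2.trans hag, q3.trans hag, X, Y, hXg, hYg, hXY, hX, hY⟩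
    · exfalso
      have e1 := sum_zero a X hX
      have e2 := sum_zero b Y hY
      rw [← sum_shift] at e1 e2
      rw [← Equiv.sum_comp p (fun j => (b (j - 1) + b j) * Y j)] at e2
      have e3 : ∑ i, ((a (i - 1) + a i) * X i + (b (p i - 1) + b (p i)) * Y (p i)) = 0 := by
        rw [Finset.sum_add_distrib, e1, e2, add_zero]
      rw [Finset.sum_eq_single g] at e3
      · rw [q1, q2, hXg, hYg] at e3
        exact absurd e3 (by decide)
      · intro i _ hi
        rw [hterm X Y i (hXY i hi), z2_self]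
      · intro hh
        exact absurd (Finset.mem_univ g) hh

end

end Pool.Agent.H59.GS
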